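import Pool.Agent.W294.MZ.ExStmts

set_option autoImplicit false

namespace Pool.Agent.W505.MZ.ExB

open IsLocalRing MZEX

theorem map_maximalIdeal {A B : Type} [CommRing A] [IsLocalRing A] [CommRing B] [IsLocalRing B]
    (f : A →+* B) (hf : Function.Surjective f) : (maximalIdeal A).map f = maximalIdeal B := by
  apply le_antisymm
  · rw [Ideal.map_le_iff_le_comap]
    intro x hx
    rw [Ideal.mem_comap, mem_maximalIdeal, mem_nonunits_iff]
    intro hu
    obtain ⟨y, hy⟩ := hu.exists_right_inv
    obtain ⟨z, rfl⟩ := hf y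
    have h1 : f (1 - x * z) = 0 := by rw [map_sub, map_mul, map_one, hy, sub_self]
    have h2 : IsUnit (1 - x * z) := by
      by_contra h3
      have h4 : (1 : A) ∈ maximalIdeal A := by
        have := (maximalIdeal A).add_mem ((mem_maximalIdeal _).mpr h3)
          ((maximalIdeal A).mul_mem_right z hx)
        simp at this
      exact (mem_maximalIdeal _).mp h4 isUnit_one
    have h5 : IsUnit (f (1 - x * z)) := h2.map f
    rw [h1] at h5
    exact not_isUnit_zero h5
  · intro y hy
    obtain ⟨x, rfl⟩ := hf y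
    refine Ideal.mem_map_of_mem f ?_
    rw [mem_maximalIdeal, mem_nonunits_iff]
    intro hu
    exact (mem_maximalIdeal _).mp hy (hu.map f)

theorem main : StmExB := by
  intro A _ _ _ _ K hK
  have : Nontrivial (A ⧸ K) := Ideal.Quotient.nontrivial_iff.mpr hK
  have hloc : IsLocalRing (A ⧸ K) :=
    IsLocalRing.of_surjective' (Ideal.Quotient.mk K) Ideal.Quotient.mk_surjective
  have hmap : (maximalIdeal A).map (Ideal.Quotient.mk K) = maximalIdeal (A ⧸ K) :=
    map_maximalIdeal _ Ideal.Quotient.mk_surjective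
  have hmap' : (maximalIdeal A).map (algebraMap A (A ⧸ K)) = maximalIdeal (A ⧸ K) := hmap
  refine ⟨hloc, ?_, ?_⟩
  · have : IsNoetherianRing (A ⧸ K) := inferInstance
    have hp : IsPrecomplete (maximalIdeal (A ⧸ K)) (A ⧸ K) := by
      rw [← hmap', IsPrecomplete.map_algebraMap_iff, ← AdicCompletion.of_surjective_iff]
      intro y
      let f : A →ₗ[A] (A ⧸ K) := (Submodule.mkQ K)
      obtain ⟨x, rfl⟩ := AdicCompletion.map_surjective (maximalIdeal A)
        (f := f) (Submodule.mkQ_surjective K) y
      obtain ⟨a, rfl⟩ := AdicCompletion.of_surjective (maximalIdeal A) A x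
      exact ⟨f a, (AdicCompletion.map_of (maximalIdeal A) f a).symm⟩
    have hh : IsHausdorff (maximalIdeal (A ⧸ K)) (A ⧸ K) := inferInstance
    exact { hh, hp with }
  · intro m
    rw [Ideal.map_pow, hmap]

end Pool.Agent.W505.MZ.ExB
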