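import Pool.Agent.W294.MZ.ExStmts

set_option autoImplicit false

namespace Pool.Agent.W505.MZ.ExC

open IsLocalRing MZEX

section

variable {W A : Type} [CommRing W] [CommRing A] [IsLocalRing A] [Algebra W A]
  {σ : Type} [Finite σ] (a : σ → A) (ha : ∀ s, a s ∈ maximalIdeal A)

include ha in
theorem aeval_mem (n : ℕ) {p : MvPolynomial σ W} (hp : p ∈ MvPolynomial.idealOfVars σ W ^ n) :
    MvPolynomial.aeval a p ∈ maximalIdeal A ^ n := by
  have h1 : MvPolynomial.idealOfVars σ W ≤
      (maximalIdeal A).comap (MvPolynomial.aeval a : MvPolynomial σ W →ₐ[W] A) := by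
    unfold MvPolynomial.idealOfVars
    rw [Ideal.span_le]
    rintro _ ⟨s, rfl⟩
    rw [SetLike.mem_coe, Ideal.mem_comap, MvPolynomial.aeval_X]
    exact ha s
  have h2 := Ideal.pow_right_mono h1 n hp
  have h3 := Ideal.le_comap_pow (MvPolynomial.aeval a : MvPolynomial σ W →ₐ[W] A) n h2
  exact h3

/-- the map modulo `m_A ^ n` -/
noncomputable def fn (n : ℕ) : MvPowerSeries σ W →ₐ[W] A ⧸ maximalIdeal A ^ n :=
  (Ideal.Quotient.liftₐ (MvPolynomial.idealOfVars σ W ^ n)
    ((Ideal.Quotient.mkₐ W (maximalIdeal A ^ n)).comp (MvPolynomial.aeval a)) (by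
      intro p hp
      rw [AlgHom.comp_apply]
      exact Ideal.Quotient.eq_zero_iff_mem.mpr (aeval_mem a ha n hp))).comp
    ((MvPowerSeries.truncTotalAlgHom σ W n).restrictScalars W)

theorem fn_apply (n : ℕ) (t : MvPowerSeries σ W) :
    fn a ha n t = Ideal.Quotient.mk (maximalIdeal A ^ n)
      (MvPolynomial.aeval a (MvPowerSeries.truncTotal n t)) := rfl

theorem fn_coe (n : ℕ) (p : MvPolynomial σ W) :
    fn a ha n (p : MvPowerSeries σ W) = Ideal.Quotient.mk (maximalIdeal A ^ n)
      (MvPolynomial.aeval a p) := by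
  rw [fn_apply, Ideal.Quotient.mk_eq_mk_iff_sub_mem, ← map_sub]
  apply aeval_mem a ha
  rw [MvPolynomial.mem_pow_idealOfVars_iff']
  intro x hx
  rw [MvPolynomial.coeff_sub, MvPowerSeries.coeff_truncTotal _ hx, MvPolynomial.coeff_coe, sub_self]

theorem compat {m n : ℕ} (hle : m ≤ n) :
    (Ideal.Quotient.factorₐ W (Ideal.pow_le_pow_right hle)).comp (fn a ha n) = fn a ha m := by
  ext t
  rw [AlgHom.comp_apply, fn_apply, fn_apply, Ideal.Quotient.factorₐ_apply_mk]
  rw [Ideal.Quotient.mk_eq_mk_iff_sub_mem, ← map_sub]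
  apply aeval_mem a ha
  exact MvPowerSeries.truncTotal_sub_truncTotal_mem_pow_idealOfVars hle le_rfl t

variable [IsAdicComplete (maximalIdeal A) A]

/-- the ring map modulo `m_A ^ n` -/
noncomputable def fr (n : ℕ) : MvPowerSeries σ W →+* A ⧸ maximalIdeal A ^ n :=
  (fn (W := W) a ha n).toRingHom

theorem fr_apply (n : ℕ) (t : MvPowerSeries σ W) : fr a ha n t = fn a ha n t := rfl

theorem compat' {m n : ℕ} (hle : m ≤ n) :
    (Ideal.Quotient.factorPow (maximalIdeal A) hle).comp (fr (W := W) a ha n) =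
      fr (W := W) a ha m := by
  apply RingHom.ext
  intro t
  exact DFunLike.congr_fun (compat (W := W) a ha hle) t

noncomputable def F0 : MvPowerSeries σ W →+* A :=
  IsAdicComplete.liftRingHom (maximalIdeal A) (fr (W := W) a ha) (fun hle => compat' a ha hle)

theorem mk_F0 (n : ℕ) (t : MvPowerSeries σ W) :
    Ideal.Quotient.mk (maximalIdeal A ^ n) (F0 a ha t) = fn a ha n t :=
  IsAdicComplete.mk_liftRingHom (maximalIdeal A) (fr (W := W) a ha)
    (fun hle => compat' a ha hle) n t

theorem F0_coe (p : MvPolynomial σ W) :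
    F0 a ha (p : MvPowerSeries σ W) = MvPolynomial.aeval a p := by
  rw [IsHausdorff.eq_iff_smodEq (I := maximalIdeal A)]
  intro n
  rw [smul_eq_mul, Ideal.mul_top, SModEq.sub_mem, ← Ideal.Quotient.mk_eq_mk_iff_sub_mem, mk_F0,
    fn_coe]

noncomputable def F : MvPowerSeries σ W →ₐ[W] A :=
  { F0 a ha with
    commutes' := by
      intro w
      have h1 : algebraMap W (MvPowerSeries σ W) w =
          ((MvPolynomial.C w : MvPolynomial σ W) : MvPowerSeries σ W) := by
        rw [MvPolynomial.coe_C]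
        rfl
      change F0 a ha (algebraMap W (MvPowerSeries σ W) w) = _
      rw [h1, F0_coe, MvPolynomial.aeval_C] }

theorem mk_F (n : ℕ) (t : MvPowerSeries σ W) :
    Ideal.Quotient.mk (maximalIdeal A ^ n) (F a ha t) = fn a ha n t := mk_F0 a ha n t

theorem F_X (s : σ) : F a ha (MvPowerSeries.X s : MvPowerSeries σ W) = a s := by
  have := F0_coe (W := W) a ha (MvPolynomial.X s)
  rwa [MvPolynomial.coe_X, MvPolynomial.aeval_X] at this

omit [Finite σ] in
theorem truncTotal_one' [Finite σ] (t : MvPowerSeries σ W) :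
    MvPowerSeries.truncTotal 1 t = MvPolynomial.C (MvPowerSeries.constantCoeff t) := by
  classical
  ext x
  rw [MvPowerSeries.coeff_truncTotal_eq_ite, MvPolynomial.coeff_C]
  by_cases hx : x = 0
  · subst hx
    simp
  · have h3 : ¬ Finsupp.degree x < 1 := by
      intro h
      apply hx
      have : Finsupp.degree x = 0 := by omega
      exact (Finsupp.degree_eq_zero_iff x).mp this
    rw [if_neg h3, if_neg (Ne.symm hx)]

theorem F_mem (t : MvPowerSeries σ W)
    (h : algebraMap W A (MvPowerSeries.constantCoeff t) ∈ maximalIdeal A) :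
    F a ha t ∈ maximalIdeal A := by
  have h1 := mk_F a ha 1 t
  rw [fn_apply, truncTotal_one', MvPolynomial.aeval_C, Ideal.Quotient.mk_eq_mk_iff_sub_mem,
    pow_one] at h1
  have h4 := (maximalIdeal A).add_mem h1 h
  rwa [sub_add_cancel] at h4

end

theorem main : StmExC := by
  intro W A _ _ _ _ _ _ _ _ _ hWA σ _ a ha
  refine ⟨F a ha, F_X a ha, ?_⟩
  intro t ht
  apply F_mem
  apply hWA
  rw [mem_maximalIdeal, mem_nonunits_iff] at ht ⊢
  rwa [MvPowerSeries.isUnit_iff_constantCoeff] at ht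

end Pool.Agent.W505.MZ.ExC
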