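import Pool.Agent.W294.MZ.ExStmts

set_option autoImplicit false

namespace Pool.Agent.W505.MZ.ExG

open MZEX

open scoped Classical in
/-- The character of order two with kernel a subgroup of index two. -/
noncomputable def chiOf {P : Type} [Group P] (K : Subgroup P) (hK : K.index = 2) :
    P →* Multiplicative (ZMod 2) where
  toFun g := if g ∈ K then 1 else Multiplicative.ofAdd (1 : ZMod 2)
  map_one' := by simp [K.one_mem]
  map_mul' a b := by
    have h := Subgroup.mul_mem_iff_of_index_two hK (a := a) (b := b)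
    by_cases ha : a ∈ K <;> by_cases hb : b ∈ K
    · simp [ha, hb, h.mpr (by simp [ha, hb])]
    · have : a * b ∉ K := fun hh => by simpa [ha, hb] using h.mp hh
      simp [ha, hb, this]
    · have : a * b ∉ K := fun hh => by simpa [ha, hb] using h.mp hh
      simp [ha, hb, this]
    · have h2 : a * b ∈ K := h.mpr (by simp [ha, hb])
      simp only [h2, ha, hb, if_true, if_false]
      rw [← ofAdd_add]
      have : (1 : ZMod 2) + 1 = 0 := by decide
      rw [this]; rfl

theorem ker_chiOf {P : Type} [Group P] (K : Subgroup P) (hK : K.index = 2) :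
    (chiOf K hK).ker = K := by
  classical
  ext g
  rw [MonoidHom.mem_ker]
  change (if g ∈ K then (1 : Multiplicative (ZMod 2)) else Multiplicative.ofAdd (1 : ZMod 2)) = 1 ↔ _
  by_cases h : g ∈ K
  · simp [h]
  · simp only [h, if_false, iff_false]
    decide

theorem exists_index_two {Q : Type} [Group Q] [Finite Q] (hQ : IsPGroup 2 Q) (D : Subgroup Q)
    (hD : D ≠ ⊤) : ∃ K : Subgroup Q, K.index = 2 ∧ D ≤ K := by
  have : Fact (Nat.Prime 2) := ⟨Nat.prime_two⟩
  obtain ⟨e, he⟩ := IsPGroup.iff_card.mp hQ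
  obtain ⟨n, hn, hn2⟩ : ∃ n ≤ e, Nat.card D = 2 ^ n := by
    have := Subgroup.card_subgroup_dvd_card D
    rw [he] at this
    exact (Nat.dvd_prime_pow Nat.prime_two).mp this
  have hne : n < e := by
    rcases hn.lt_or_eq with h | h
    · exact h
    · exfalso
      apply hD
      apply Subgroup.eq_top_of_card_eq
      rw [hn2, he, h]
  obtain ⟨K, hK, hNK⟩ := Sylow.exists_subgroup_card_pow_prime_le (p := 2) (n := n) (m := e - 1)
    (by rw [he]; exact pow_dvd_pow 2 (by omega)) D hn2 (by omega)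
  refine ⟨K, ?_, hNK⟩
  have h1 := K.card_mul_index
  rw [hK, he] at h1
  have h2 : 2 ^ e = 2 ^ (e - 1) * 2 := by
    rw [← pow_succ]; congr 1; omega
  rw [h2] at h1
  exact Nat.eq_of_mul_eq_mul_left (by positivity) h1

theorem main : StmExG := by
  intro G _ _ _ _ _ H hHn hHo hfin
  have hHq : Finite (G ⧸ H) := Subgroup.quotient_finite_of_isOpen H hHo
  have hHfi : H.FiniteIndex := Subgroup.finiteIndex_of_finite_quotient
  let ΦH : Subgroup H :=
    ⨅ χ : {χ : H →* Multiplicative (ZMod 2) // IsOpen (χ.ker : Set H)}, χ.1.ker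
  let Φ : Subgroup G := ΦH.map H.subtype
  have hΦH : ΦH.FiniteIndex := Subgroup.finiteIndex_iInf fun χ => inferInstance
  have hΦ : Φ.FiniteIndex := by
    constructor
    rw [Subgroup.index_map_subtype]
    exact mul_ne_zero hΦH.index_ne_zero hHfi.index_ne_zero
  have hΦq : Finite (G ⧸ Φ) := inferInstance
  let e : G ⧸ Φ ≃ Fin (Nat.card (G ⧸ Φ)) := Finite.equivFin _
  let x : Fin (Nat.card (G ⧸ Φ)) → G := fun i => (e.symm i).out
  have hx : ∀ g : G, ∃ i, ∃ φ : H, φ ∈ ΦH ∧ g = x i * φ := by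
    intro g
    refine ⟨e (QuotientGroup.mk g), ?_⟩
    have h1 : (QuotientGroup.mk (x (e (QuotientGroup.mk g))) : G ⧸ Φ) = QuotientGroup.mk g := by
      simp only [x, Equiv.symm_apply_apply]
      exact Quotient.out_eq' _
    have h2 := QuotientGroup.eq.mp h1
    obtain ⟨φ, hφ, hφ'⟩ := Subgroup.mem_map.mp h2
    refine ⟨φ, hφ, ?_⟩
    change (φ : G) = _ at hφ'
    rw [hφ']
    group
  refine ⟨_, x, ?_⟩
  rintro N ⟨hNn, hNo, hNH, hp⟩
  by_contra hC
  set C := Subgroup.closure (Set.range x) ⊔ N with hCdef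
  have hxC : ∀ i, x i ∈ C := fun i =>
    (le_sup_left : _ ≤ C) (Subgroup.subset_closure (Set.mem_range_self i))
  have hHC : ¬ H ≤ C := by
    intro h
    apply hC
    rw [eq_top_iff]
    intro g _
    obtain ⟨i, φ, -, rfl⟩ := hx g
    exact C.mul_mem (hxC i) (h φ.2)
  set N' : Subgroup H := N.subgroupOf H with hN'
  have hN'n : N'.Normal := inferInstance
  have hNq : Finite (G ⧸ N) := Subgroup.quotient_finite_of_isOpen N hNo
  have hNfi : N.FiniteIndex := Subgroup.finiteIndex_of_finite_quotient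
  have hN'fi : N'.FiniteIndex := inferInstance
  have hQ : Finite (H ⧸ N') := inferInstance
  have hQp : IsPGroup 2 (H ⧸ N') := by
    intro q
    obtain ⟨h, rfl⟩ := QuotientGroup.mk_surjective q
    obtain ⟨k, hk⟩ := hp h h.2
    refine ⟨k, ?_⟩
    rw [← QuotientGroup.mk_pow, QuotientGroup.eq_one_iff, hN', Subgroup.mem_subgroupOf]
    exact hk
  have hNC : N' ≤ C.subgroupOf H := Subgroup.comap_mono le_sup_right
  have hcm : ((C.subgroupOf H).map (QuotientGroup.mk' N')).comap (QuotientGroup.mk' N') =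
      C.subgroupOf H := by
    rw [Subgroup.comap_map_eq, QuotientGroup.ker_mk']
    exact sup_eq_left.mpr hNC
  have hD : (C.subgroupOf H).map (QuotientGroup.mk' N') ≠ ⊤ := by
    intro h
    rw [h, Subgroup.comap_top] at hcm
    exact hHC (Subgroup.subgroupOf_eq_top.mp hcm.symm)
  obtain ⟨K, hK2, hDK⟩ := exists_index_two hQp _ hD
  set K' : Subgroup H := K.comap (QuotientGroup.mk' N') with hK'
  have hK'i : K'.index = 2 := by
    rw [hK', Subgroup.index_comap_of_surjective _ (QuotientGroup.mk'_surjective N'), hK2]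
  have hCK : C.subgroupOf H ≤ K' := by
    rw [← hcm]
    exact Subgroup.comap_mono hDK
  have hN'o : IsOpen (N' : Set H) := hNo.preimage continuous_subtype_val
  have hopen : IsOpen ((chiOf K' hK'i).ker : Set H) := by
    rw [ker_chiOf]
    exact Subgroup.isOpen_mono (hNC.trans hCK) hN'o
  have hΦK : ΦH ≤ K' := by
    have : ΦH ≤ (chiOf K' hK'i).ker :=
      iInf_le (fun χ : {χ : H →* Multiplicative (ZMod 2) // IsOpen (χ.ker : Set H)} => χ.1.ker)
        ⟨chiOf K' hK'i, hopen⟩
    rwa [ker_chiOf] at this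
  have htop : K' = ⊤ := by
    rw [eq_top_iff]
    intro h _
    obtain ⟨i, φ, hφ, hh⟩ := hx h
    have h1 : x i = ((h * φ⁻¹ : H) : G) := by
      push_cast
      rw [hh]
      group
    have h2 : h * φ⁻¹ ∈ C.subgroupOf H := by
      rw [Subgroup.mem_subgroupOf, ← h1]
      exact hxC i
    have h3 := K'.mul_mem (hCK h2) (hΦK hφ)
    simpa using h3
  rw [htop, Subgroup.index_top] at hK'i
  omega

end Pool.Agent.W505.MZ.ExG
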