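import Pool.Agent.W294.MZ.ExStmts

set_option autoImplicit false

namespace Pool.Agent.W505.MZ.ExW

open IsLocalRing MZEX

theorem main : StmExW := by
  intro p _ k _ _ _
  have : PerfectRing k p := inferInstance
  have hdvr : IsDiscreteValuationRing (WittVector p k) := inferInstance
  refine ⟨inferInstance, inferInstance, ?_, ?_⟩
  · have h1 : maximalIdeal (WittVector p k) = Ideal.span {(p : WittVector p k)} :=
      (WittVector.irreducible p (k := k)).maximalIdeal_eq
    rw [h1]
    infer_instance
  · intro x
    have h1 : maximalIdeal (WittVector p k) = Ideal.span {(p : WittVector p k)} :=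
      (WittVector.irreducible p (k := k)).maximalIdeal_eq
    rw [h1]
    exact WittVector.mem_span_p_iff_coeff_zero_eq_zero x

end Pool.Agent.W505.MZ.ExW
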