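import Pool.Agent.W566.MZ.Stmts

/-! MP_aa8fd2_nt, part DELTA. -/

set_option autoImplicit false

namespace Pool.Agent.W505.MZ

open NumberField IsDedekindDomain _root_.MZ Polynomial

lemma s5_notin : s5 ∉ (algebraMap ℚ Om).range := by
  rintro ⟨q, hq⟩
  have h1 : algebraMap ℚ Om (q ^ 2) = algebraMap ℚ Om 5 := by
    rw [map_pow, hq, s5_sq]
    simp
  have h2 : q ^ 2 = 5 := (algebraMap ℚ Om).injective h1
  have h3 : ¬ IsSquare (5 : ℚ) := by norm_num
  exact h3 ⟨q, by rw [← h2]; ring⟩

lemma finrank_F5 : Module.finrank ℚ F5 = 2 := by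
  have hint : IsIntegral ℚ s5 := Algebra.IsIntegral.isIntegral s5
  have h1 : Module.finrank ℚ F5 = (minpoly ℚ s5).natDegree := IntermediateField.adjoin.finrank hint
  rw [h1]
  apply le_antisymm
  · have hd : minpoly ℚ s5 ∣ (X ^ 2 - C 5 : ℚ[X]) := by
      apply minpoly.dvd
      simp [s5_sq]
    have := Polynomial.natDegree_le_of_dvd hd (Polynomial.X_pow_sub_C_ne_zero (by norm_num) _)
    rwa [Polynomial.natDegree_X_pow_sub_C] at this
  · rw [minpoly.two_le_natDegree_iff hint]
    exact s5_notin

/-- `√5` as an element of `F5` -/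
noncomputable def s5' : F5 := ⟨s5, IntermediateField.mem_adjoin_simple_self ℚ s5⟩

lemma s5'_sq : s5' ^ 2 = 5 := by
  apply Subtype.ext
  show s5 ^ 2 = ((5 : F5) : Om)
  rw [s5_sq]
  norm_cast

lemma isReal_F5 (φ : F5 →+* ℂ) : ComplexEmbedding.IsReal φ := by
  have h1 : (φ s5') ^ 2 = 5 := by
    rw [← map_pow, s5'_sq, map_ofNat]
  have h2 : (starRingEnd ℂ) (φ s5') = φ s5' := by
    have h3 : (φ s5') ^ 2 = ((Real.sqrt 5 : ℝ) : ℂ) ^ 2 := by
      rw [h1, ← Complex.ofReal_pow, Real.sq_sqrt (by norm_num)]
      norm_num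
    rcases sq_eq_sq_iff_eq_or_eq_neg.1 h3 with h | h
    · rw [h, Complex.conj_ofReal]
    · rw [h, map_neg, Complex.conj_ofReal]
  have h4 : (((starRingEnd ℂ).comp φ).toRatAlgHom : F5 →ₐ[ℚ] ℂ) = φ.toRatAlgHom := by
    refine IntermediateField.algHom_ext_of_eq_adjoin (F := ℚ) (S := F5) (s := {s5}) rfl ?_
    intro x hx
    rw [Set.mem_singleton_iff] at hx
    subst hx
    exact h2
  rw [ComplexEmbedding.isReal_iff]
  ext x
  exact congrArg (fun f : F5 →ₐ[ℚ] ℂ => f x) h4

lemma nrComplex_F5 : InfinitePlace.nrComplexPlaces F5 = 0 := by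
  classical
  unfold InfinitePlace.nrComplexPlaces
  rw [Fintype.card_eq_zero_iff]
  constructor
  rintro ⟨w, hw⟩
  rw [InfinitePlace.isComplex_iff] at hw
  exact hw (isReal_F5 _)

lemma card_F5 : Fintype.card (InfinitePlace F5) = 2 := by
  have h1 := InfinitePlace.card_eq_nrRealPlaces_add_nrComplexPlaces F5
  have h2 := InfinitePlace.card_add_two_mul_card_eq_rank F5
  rw [nrComplex_F5] at h1 h2
  rw [finrank_F5] at h2
  omega

lemma finrank_trace (k : Type) [Field k] :
    Module.finrank k (LinearMap.ker (Matrix.traceLinearMap (Fin 3) k k)) = 8 := by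
  have h1 := LinearMap.finrank_range_add_finrank_ker (Matrix.traceLinearMap (Fin 3) k k)
  have h2 : LinearMap.range (Matrix.traceLinearMap (Fin 3) k k) = ⊤ := by
    rw [LinearMap.range_eq_top]
    intro c
    refine ⟨Matrix.single 0 0 c, ?_⟩
    simp
  rw [h2, finrank_top, Module.finrank_self, Module.finrank_matrix] at h1
  simp at h1
  omega

theorem delta : StmDelta := by
  intro k _ ρbar hρ w hw
  have key : ∀ v : InfinitePlace F5,
      Module.finrank k (ad0Inv ρbar (MulAction.stabilizer (GFS Om S30) (w v))) = 8 := by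
    intro v
    rw [← finrank_trace k]
    have : ad0Inv ρbar (MulAction.stabilizer (GFS Om S30) (w v)) =
        LinearMap.ker (Matrix.traceLinearMap (Fin 3) k k) := by
      ext X
      constructor
      · intro hX
        exact hX.1
      · intro hX
        refine ⟨hX, ?_⟩
        intro g hg
        have hg2 : g * g = 1 := by
          rw [← InfinitePlace.mk_embedding (w v), InfinitePlace.mem_stabilizer_mk_iff] at hg
          rcases hg with rfl | hg
          · simp
          · apply AlgEquiv.ext
            intro x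
            apply (InfinitePlace.embedding (w v)).injective
            show InfinitePlace.embedding (w v) (g (g x)) = InfinitePlace.embedding (w v) x
            rw [hg.eq, hg.eq, star_star]
        rw [hρ g hg2]
        simp
    rw [this]
  unfold _root_.MZ.delta
  rw [Finset.sum_congr rfl (fun v _ => by rw [key v]), Finset.sum_const, Finset.card_univ, card_F5,
    nrComplex_F5, finrank_F5]
  norm_num

end Pool.Agent.W505.MZ
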